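import Mathlib
import Pool.Agent.Helper53.GD.Core

set_option autoImplicit false

namespace Pool.Agent.Helper53.GG

open Finset Matrix Polynomial Pool.Agent.Helper53.GD

/-- the twisted determinant does not vanish if the polynomial has no zero `ξ` with `ξ ^ q = τ` -/
lemma det_ne_zero_of_points {q : ℕ} [NeZero q] (w : Fin q → ℚ) (τ : ℚ) (hτ : τ ≠ 0)
    (hw : ∀ ξ : ℂ, ξ ^ q = (τ : ℂ) → ∑ a, (w a : ℂ) * ξ ^ (a : ℕ) ≠ 0) : (tw w τ).det ≠ 0 := by
  classical
  intro hdet
  obtain ⟨z, hz, hMz⟩ := Matrix.exists_mulVec_eq_zero_iff.2 hdet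
  have hq : q ≠ 0 := NeZero.ne q
  have hz0 : ∀ ξ : ℂ, ξ ^ q = (τ : ℂ) → ∑ l, (z l : ℂ) * ξ ^ (l : ℕ) = 0 := by
    intro ξ hξ
    have hid : ∀ l : Fin q, (∑ a, (w a : ℂ) * ξ ^ (a : ℕ)) * ξ ^ (l : ℕ) =
        ∑ j, ((tw w τ j l : ℚ) : ℂ) * ξ ^ (j : ℕ) := by
      intro l
      rw [Finset.sum_mul, ← Equiv.sum_comp (Equiv.subRight l)]
      apply Finset.sum_congr rfl
      intro j _
      simp only [Equiv.subRight_apply, tw]
      rw [mul_assoc, ← pow_add, val_sub, pow_add, pow_mul, hξ]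
      push_cast
      ring
    have h0 : (∑ a, (w a : ℂ) * ξ ^ (a : ℕ)) * (∑ l, (z l : ℂ) * ξ ^ (l : ℕ)) = 0 := by
      rw [Finset.mul_sum]
      have h1 : ∀ l : Fin q, (∑ a, (w a : ℂ) * ξ ^ (a : ℕ)) * ((z l : ℂ) * ξ ^ (l : ℕ)) =
          ∑ j, ((tw w τ j l * z l : ℚ) : ℂ) * ξ ^ (j : ℕ) := by
        intro l
        calc _ = (z l : ℂ) * ((∑ a, (w a : ℂ) * ξ ^ (a : ℕ)) * ξ ^ (l : ℕ)) := by ring
          _ = _ := by
            rw [hid l, Finset.mul_sum]
            apply Finset.sum_congr rfl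
            intro j _
            push_cast; ring
      rw [Finset.sum_congr rfl (fun l _ => h1 l), Finset.sum_comm]
      apply Finset.sum_eq_zero
      intro j _
      rw [← Finset.sum_mul]
      have h3 := congrFun hMz j
      simp only [Matrix.mulVec, dotProduct, Pi.zero_apply] at h3
      have h4 : ∑ l, ((tw w τ j l * z l : ℚ) : ℂ) = 0 := by
        rw [← Rat.cast_sum, h3, Rat.cast_zero]
      rw [h4, zero_mul]
    exact (mul_eq_zero.1 h0).resolve_left (hw ξ hξ)
  let P : ℂ[X] := ∑ a : Fin q, C (z a : ℂ) * X ^ (a : ℕ)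
  have hdeg : P.degree < (q : WithBot ℕ) := by
    refine lt_of_le_of_lt (Polynomial.degree_sum_le _ _) ?_
    rw [Finset.sup_lt_iff (by exact WithBot.bot_lt_coe q)]
    intro a _
    refine lt_of_le_of_lt (Polynomial.degree_C_mul_X_pow_le _ _) ?_
    exact_mod_cast a.isLt
  have hprim := Complex.isPrimitiveRoot_exp q hq
  have hτC : (τ : ℂ) ≠ 0 := by exact_mod_cast hτ
  have hcard : (nthRoots q (τ : ℂ)).toFinset.card = q := by
    rw [Multiset.toFinset_card_of_nodup (hprim.nthRoots_nodup hτC), hprim.card_nthRoots,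
      if_pos (IsAlgClosed.exists_pow_nat_eq (τ : ℂ) (Nat.pos_of_ne_zero hq))]
  have hP : P = 0 := by
    apply Polynomial.eq_zero_of_degree_lt_of_eval_finset_eq_zero (nthRoots q (τ : ℂ)).toFinset
    · rw [hcard]; exact hdeg
    · intro ξ hξ
      rw [Multiset.mem_toFinset, mem_nthRoots (Nat.pos_of_ne_zero hq)] at hξ
      have h1 := hz0 ξ hξ
      simp only [P, eval_finsetSum, eval_mul, eval_C, eval_pow, eval_X]
      exact h1
  apply hz
  funext a
  have h2 := congrArg (fun p => coeff p (a : ℕ)) hP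
  simp only [P, finsetSum_coeff, coeff_C_mul_X_pow, coeff_zero] at h2
  rw [Finset.sum_eq_single a] at h2
  · simpa using h2
  · intro b _ hb
    rw [if_neg]
    intro h
    exact hb (Fin.ext h.symm)
  · intro h; exact absurd (Finset.mem_univ _) h

/-- **The core.** -/
theorem core_points {b n q r : ℕ} (hb : 2 ≤ b) (hq : 1 ≤ q) {ε : ℤ} (hε : ε = 1 ∨ ε = -1)
    {ι : Type} (s : Finset ι) (c : ι → ℤ) (e α : ι → ℕ)
    (hnv : ∀ ξ : ℂ, ξ ^ q = (ε : ℂ) / (b : ℂ) ^ n →
      ∑ i ∈ s, (c i : ℂ) * (b : ℂ) ^ (e i) * ξ ^ (α i) ≠ 0)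
    (h1 : ∀ i ∈ s, n * α i ≤ q * e i) (h2 : ∀ i ∈ s, q * e i ≤ n * α i + r)
    {x : ℤ} (hx : x ∣ (b : ℤ) ^ n - ε) (hcop : IsCoprime x (b : ℤ))
    (hxz : x ∣ ∑ i ∈ s, c i * (b : ℤ) ^ (e i)) :
    |x| ≤ (∑ i ∈ s, |c i|) ^ q * (b : ℤ) ^ r := by
  classical
  have hne : NeZero q := ⟨by omega⟩
  have hqr : (q : ℝ) ≠ 0 := by exact_mod_cast (by omega : q ≠ 0)
  have hb0 : (0 : ℝ) < b := by exact_mod_cast (by omega : 0 < b)
  -- the reduced exponents
  have hκ : ∀ i ∈ s, n * (α i / q) ≤ e i := by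
    intro i hi
    have h3 := h1 i hi
    have h4 : q * (α i / q) ≤ α i := Nat.mul_div_le _ _
    have h5 : q * (n * (α i / q)) ≤ q * e i := by
      calc q * (n * (α i / q)) = n * (q * (α i / q)) := by ring
        _ ≤ n * α i := Nat.mul_le_mul_left _ h4
        _ ≤ q * e i := h3
    exact Nat.le_of_mul_le_mul_left h5 (by omega)
  let E : ι → ℕ := fun i => e i - n * (α i / q)
  have hE : ∀ i ∈ s, q * E i + n * (q * (α i / q)) = q * e i := by
    intro i hi
    have h3 := hκ i hi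
    simp only [E]
    have h4 : q * (e i - n * (α i / q)) + q * (n * (α i / q)) = q * e i := by
      rw [← Nat.mul_add, Nat.sub_add_cancel h3]
    calc _ = q * (e i - n * (α i / q)) + q * (n * (α i / q)) := by ring
      _ = _ := h4
  have hmod : ∀ i, n * α i = n * (α i % q) + n * (q * (α i / q)) := by
    intro i
    rw [← Nat.mul_add, Nat.mod_add_div]
  have hElow : ∀ i ∈ s, n * (α i % q) ≤ q * E i := by
    intro i hi
    have h3 := h1 i hi
    have h4 := hE i hi
    have h5 := hmod i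
    omega
  have hEup : ∀ i ∈ s, q * E i ≤ n * (α i % q) + r := by
    intro i hi
    have h3 := h2 i hi
    have h4 := hE i hi
    have h5 := hmod i
    omega
  let m : Fin q → ℕ := fun a => (n * (a : ℕ) + q - 1) / q
  have hm : ∀ a : Fin q, n * (a : ℕ) ≤ q * m a := by
    intro a
    simp only [m]
    have h3 := Nat.div_add_mod (n * (a : ℕ) + q - 1) q
    have h4 := Nat.mod_lt (n * (a : ℕ) + q - 1) (by omega : q > 0)
    omega
  have hmE : ∀ i ∈ s, ∀ a : Fin q, α i % q = a → m a ≤ E i := by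
    intro i hi a ha
    have h3 := hElow i hi
    rw [ha] at h3
    simp only [m]
    apply Nat.le_of_lt_succ
    rw [Nat.div_lt_iff_lt_mul (by omega)]
    have h4 : (E i).succ * q = q * E i + q := by rw [Nat.succ_mul, Nat.mul_comm]
    rw [h4]
    omega
  let w' : Fin q → ℤ := fun a => ∑ i ∈ s.filter (fun i => α i % q = a),
    c i * ε ^ (α i / q) * (b : ℤ) ^ (E i - m a)
  let W : Fin q → ℤ := fun a => w' a * (b : ℤ) ^ (m a)
  have hWsum : ∀ a, W a = ∑ i ∈ s.filter (fun i => α i % q = a),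
      c i * ε ^ (α i / q) * (b : ℤ) ^ (E i) := by
    intro a
    simp only [W, w']
    rw [Finset.sum_mul]
    apply Finset.sum_congr rfl
    intro i hi
    rw [Finset.mem_filter] at hi
    have h3 := hmE i hi.1 a hi.2
    rw [mul_assoc, ← pow_add, Nat.sub_add_cancel h3]
  have hfib : ∀ g : ι → ℤ, ∑ a : Fin q, ∑ i ∈ s.filter (fun i => α i % q = a), g i = ∑ i ∈ s, g i := by
    intro g
    have h3 : ∀ a : Fin q, s.filter (fun i => α i % q = a) =
        s.filter (fun i => (⟨α i % q, Nat.mod_lt _ (by omega)⟩ : Fin q) = a) := by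
      intro a
      apply Finset.filter_congr
      intro i _
      rw [Fin.ext_iff]
    rw [Finset.sum_congr rfl (fun a _ => by rw [h3 a])]
    exact Finset.sum_fiberwise s (fun i => (⟨α i % q, Nat.mod_lt _ (by omega)⟩ : Fin q)) g
  have hWtot : ∑ a, W a = ∑ i ∈ s, c i * ε ^ (α i / q) * (b : ℤ) ^ (E i) := by
    rw [Finset.sum_congr rfl (fun a _ => hWsum a), hfib]
  have hdiff : ((b : ℤ) ^ n - ε) ∣ ∑ i ∈ s, c i * (b : ℤ) ^ (e i) - ∑ a, W a := by
    rw [hWtot, ← Finset.sum_sub_distrib]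
    apply Finset.dvd_sum
    intro i hi
    have h3 : (b : ℤ) ^ (e i) = (b : ℤ) ^ (E i) * ((b : ℤ) ^ n) ^ (α i / q) := by
      rw [← pow_mul, ← pow_add]
      congr 1
      have := hκ i hi
      simp only [E]
      omega
    have h4 : c i * (b : ℤ) ^ (e i) - c i * ε ^ (α i / q) * (b : ℤ) ^ (E i) =
        c i * (b : ℤ) ^ (E i) * (((b : ℤ) ^ n) ^ (α i / q) - ε ^ (α i / q)) := by
      rw [h3]; ring
    rw [h4]
    exact Dvd.dvd.mul_left (sub_dvd_pow_sub_pow _ _ _) _
  obtain ⟨D, hD⟩ := det_int hb ε m w' hm (n := n)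
  have hDW : (D : ℚ) = (tw (fun a => ((W a : ℤ) : ℚ)) ((ε : ℚ) / (b : ℚ) ^ n)).det := hD
  have hxW : x ∣ ∑ a, W a := by
    have h3 := (hx.trans hdiff)
    exact (dvd_sub_right hxz).1 h3
  have hxD : x ∣ D := det_dvd hb hDW hx hcop hxW
  have hε0 : (ε : ℂ) ≠ 0 := by
    rcases hε with h | h <;> rw [h] <;> simp
  have hbC : (b : ℂ) ≠ 0 := by exact_mod_cast (by omega : b ≠ 0)
  have hD0 : D ≠ 0 := by
    intro h0
    rw [h0] at hDW
    have h3 := det_ne_zero_of_points (fun a => ((W a : ℤ) : ℚ)) ((ε : ℚ) / (b : ℚ) ^ n) (by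
      have h5 : (ε : ℚ) ≠ 0 := by rcases hε with h | h <;> rw [h] <;> simp
      have h6 : (b : ℚ) ≠ 0 := by exact_mod_cast (by omega : b ≠ 0)
      positivity) (by
      intro ξ hξ
      have hξ' : ξ ^ q = (ε : ℂ) / (b : ℂ) ^ n := by
        rw [hξ]; push_cast; rfl
      have h4 : ∑ a : Fin q, (((W a : ℤ) : ℚ) : ℂ) * ξ ^ (a : ℕ) =
          ∑ i ∈ s, (c i : ℂ) * (b : ℂ) ^ (e i) * ξ ^ (α i) := by
        have h5 : ∀ a : Fin q, (((W a : ℤ) : ℚ) : ℂ) * ξ ^ (a : ℕ) =
            ∑ i ∈ s.filter (fun i => α i % q = a), (c i : ℂ) * (b : ℂ) ^ (e i) * ξ ^ (α i) := by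
          intro a
          rw [hWsum a]
          push_cast
          rw [Finset.sum_mul]
          apply Finset.sum_congr rfl
          intro i hi
          rw [Finset.mem_filter] at hi
          have h6 : (b : ℂ) ^ (e i) = (b : ℂ) ^ (E i) * ((b : ℂ) ^ n) ^ (α i / q) := by
            rw [← pow_mul, ← pow_add]
            congr 1
            have := hκ i hi.1
            simp only [E]
            omega
          have h7 : ξ ^ (α i) = ξ ^ (a : ℕ) * ((ε : ℂ) / (b : ℂ) ^ n) ^ (α i / q) := by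
            rw [← hξ', ← pow_mul, ← pow_add]
            congr 1
            have := Nat.mod_add_div (α i) q
            omega
          rw [h6, h7, div_pow]
          have h8 : ((b : ℂ) ^ n) ^ (α i / q) ≠ 0 := pow_ne_zero _ (pow_ne_zero _ hbC)
          field_simp
        rw [Finset.sum_congr rfl (fun a _ => h5 a)]
        have h3 : ∀ a : Fin q, s.filter (fun i => α i % q = a) =
            s.filter (fun i => (⟨α i % q, Nat.mod_lt _ (by omega)⟩ : Fin q) = a) := by
          intro a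
          apply Finset.filter_congr
          intro i _
          rw [Fin.ext_iff]
        rw [Finset.sum_congr rfl (fun a _ => by rw [h3 a])]
        exact Finset.sum_fiberwise s (fun i => (⟨α i % q, Nat.mod_lt _ (by omega)⟩ : Fin q)) _
      rw [h4]
      exact hnv ξ hξ')
    apply h3
    rw [← hDW]; simp
  have hε1 : |(ε : ℝ)| = 1 := by
    rcases hε with h | h <;> rw [h] <;> simp
  have hsize : |(D : ℝ)| ≤ (∑ a : Fin q, ∑ i ∈ s.filter (fun i => α i % q = a), (|c i| : ℝ)) ^ q *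
      (b : ℝ) ^ r := by
    apply det_size hb hε1 W _ _ _ hDW
    · intro a
      exact Finset.sum_nonneg (fun i _ => abs_nonneg _)
    · intro a
      rw [hWsum a]
      push_cast
      rw [Finset.sum_mul]
      refine (Finset.abs_sum_le_sum_abs _ _).trans (Finset.sum_le_sum ?_)
      intro i hi
      rw [Finset.mem_filter] at hi
      rw [abs_mul, abs_mul, abs_pow, hε1, one_pow, mul_one]
      apply mul_le_mul_of_nonneg_left _ (abs_nonneg _)
      rw [abs_of_pos (by positivity)]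
      have h3 := hEup i hi.1
      rw [hi.2] at h3
      have h4 : ((b : ℝ) ^ (E i)) ^ q ≤
          (((b : ℝ) ^ ((n : ℝ) / q)) ^ (a : ℕ) * (b : ℝ) ^ ((r : ℝ) / q)) ^ q := by
        have e1 : (((b : ℝ) ^ ((n : ℝ) / q)) ^ (a : ℕ) * (b : ℝ) ^ ((r : ℝ) / q)) ^ q =
            (b : ℝ) ^ (n * (a : ℕ) + r) := by
          rw [mul_pow, ← pow_mul, mul_comm (a : ℕ) q, pow_mul]
          have e2 : ((b : ℝ) ^ ((n : ℝ) / q)) ^ q = (b : ℝ) ^ n := by
            rw [← Real.rpow_natCast, ← Real.rpow_mul hb0.le, div_mul_cancel₀ _ hqr,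
              Real.rpow_natCast]
          have e3 : ((b : ℝ) ^ ((r : ℝ) / q)) ^ q = (b : ℝ) ^ r := by
            rw [← Real.rpow_natCast, ← Real.rpow_mul hb0.le, div_mul_cancel₀ _ hqr,
              Real.rpow_natCast]
          rw [e2, e3, ← pow_mul, ← pow_add]
        rw [e1, ← pow_mul]
        apply pow_le_pow_right₀ (by exact_mod_cast (by omega : 1 ≤ b))
        rw [mul_comm]
        exact h3
      exact (pow_le_pow_iff_left₀ (by positivity) (by positivity) (by omega)).1 h4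
  have hKsum : (∑ a : Fin q, ∑ i ∈ s.filter (fun i => α i % q = a), (|c i| : ℝ)) =
      ((∑ i ∈ s, |c i| : ℤ) : ℝ) := by
    rw [← hfib (fun i => |c i|)]
    push_cast
    rfl
  rw [hKsum] at hsize
  have hsize2 : |D| ≤ (∑ i ∈ s, |c i|) ^ q * (b : ℤ) ^ r := by
    have h3 : ((|D| : ℤ) : ℝ) ≤ (((∑ i ∈ s, |c i|) ^ q * (b : ℤ) ^ r : ℤ) : ℝ) := by
      push_cast
      push_cast at hsize
      exact hsize
    exact_mod_cast h3
  have h4 : |x| ≤ |D| := Int.le_of_dvd (abs_pos.2 hD0) ((abs_dvd_abs x D).2 hxD)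
  exact h4.trans hsize2

end Pool.Agent.Helper53.GG
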