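import Mathlib

set_option autoImplicit false

namespace Pool.Agent.Helper53.GG

open Finset Polynomial

/-- `1 / 2` is not an algebraic integer -/
lemma not_integral_half : ¬ IsIntegral ℤ (2⁻¹ : ℂ) := by
  intro h
  have h1 : IsIntegral ℤ (2⁻¹ : ℚ) := by
    have h2 : (2⁻¹ : ℂ) = algebraMap ℚ ℂ (2⁻¹ : ℚ) := by simp
    rw [h2] at h
    exact (isIntegral_algebraMap_iff (algebraMap ℚ ℂ).injective).1 h
  obtain ⟨y, hy⟩ := IsIntegrallyClosed.isIntegral_iff.1 h1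
  have h3 : (2 : ℚ) * (y : ℚ) = 1 := by
    have h4 : (y : ℚ) = 2⁻¹ := hy
    rw [h4]; norm_num
  have h5 : (2 : ℤ) * y = 1 := by exact_mod_cast h3
  omega

lemma integral_of_pow {u : ℂ} {q r : ℕ} (hq : 1 ≤ q) (hu : u ^ q = 2 ^ r) : IsIntegral ℤ u := by
  apply IsIntegral.of_pow (n := q) (by omega)
  rw [hu]
  have h2 : (2 : ℂ) = algebraMap ℤ ℂ 2 := by simp
  rw [h2]
  exact (isIntegral_algebraMap).pow r

/-- numbers with a power divisible by two have no combination equal to `-1` -/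
lemma rad_ne {u v κ lam : ℂ} {q r r' : ℕ} (hq : 1 ≤ q) (hr : 1 ≤ r) (hr' : 1 ≤ r')
    (hu : u ^ q = 2 ^ r) (hv : v ^ q = 2 ^ r') (hκ : IsIntegral ℤ κ) (hl : IsIntegral ℤ lam) :
    u * κ + v * lam ≠ -1 := by
  intro h
  let R := integralClosure ℤ ℂ
  let u' : R := ⟨u, integral_of_pow hq hu⟩
  let v' : R := ⟨v, integral_of_pow hq hv⟩
  let κ' : R := ⟨κ, hκ⟩
  let l' : R := ⟨lam, hl⟩
  let I : Ideal R := Ideal.span {(2 : R)}
  have hpow : ∀ m : ℕ, 1 ≤ m → (2 : R) ^ m ∈ I := by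
    intro m hm
    obtain ⟨m', rfl⟩ : ∃ m', m = m' + 1 := ⟨m - 1, by omega⟩
    rw [pow_succ]
    exact Ideal.mul_mem_left _ _ (Ideal.subset_span rfl)
  have hu' : u' ∈ I.radical := by
    refine ⟨q, ?_⟩
    have h1 : u' ^ q = (2 : R) ^ r := by
      apply Subtype.ext
      push_cast
      exact hu
    rw [h1]
    exact hpow r hr
  have hv' : v' ∈ I.radical := by
    refine ⟨q, ?_⟩
    have h1 : v' ^ q = (2 : R) ^ r' := by
      apply Subtype.ext
      push_cast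
      exact hv
    rw [h1]
    exact hpow r' hr'
  have h1 : (-1 : R) ∈ I.radical := by
    have h2 : u' * κ' + v' * l' ∈ I.radical :=
      Ideal.add_mem _ (Ideal.mul_mem_right _ _ hu') (Ideal.mul_mem_right _ _ hv')
    have h3 : u' * κ' + v' * l' = (-1 : R) := by
      apply Subtype.ext
      push_cast
      exact h
    rwa [h3] at h2
  have h4 : (1 : R) ∈ I := by
    have h5 : (1 : R) ∈ I.radical := by
      have := (Ideal.neg_mem_iff _).2 h1
      simpa using this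
    obtain ⟨m, hm⟩ := h5
    simpa using hm
  rw [Ideal.mem_span_singleton] at h4
  obtain ⟨s, hs⟩ := h4
  apply not_integral_half
  have h6 : (2⁻¹ : ℂ) = (s : ℂ) := by
    have h7 := congrArg (fun t : R => (t : ℂ)) hs
    push_cast at h7
    exact inv_eq_of_mul_eq_one_right h7.symm
  rw [h6]
  exact s.2

section

variable {n q : ℕ} {ξ : ℂ}

lemma xi_ne (hq : 1 ≤ q) (hξ : ξ ^ q * 2 ^ n = 1) : ξ ≠ 0 := by
  intro h
  rw [h, zero_pow (by omega), zero_mul] at hξ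
  exact zero_ne_one hξ

lemma mon_q (hq : 1 ≤ q) (hξ : ξ ^ q * 2 ^ n = 1) (x y : ℤ) :
    ((2 : ℂ) ^ x * ξ ^ y) ^ q = (2 : ℂ) ^ ((q : ℤ) * x - n * y) := by
  have h2 : (2 : ℂ) ≠ 0 := two_ne_zero
  have h1 : ξ ^ (q : ℤ) = (2 : ℂ) ^ (-(n : ℤ)) := by
    rw [zpow_natCast, zpow_neg, zpow_natCast]
    exact eq_inv_of_mul_eq_one_left hξ
  rw [mul_pow, ← zpow_natCast ((2 : ℂ) ^ x), ← zpow_natCast (ξ ^ y), ← zpow_mul, ← zpow_mul,
    mul_comm y (q : ℤ), zpow_mul ξ, h1, ← zpow_mul, ← zpow_add₀ h2]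
  congr 1
  ring

lemma mon_n (hq : 1 ≤ q) (hξ : ξ ^ q * 2 ^ n = 1) {x y : ℤ} (h : (q : ℤ) * x = n * y) :
    ((2 : ℂ) ^ x * ξ ^ y) ^ n = 1 := by
  have h2 : (2 : ℂ) ≠ 0 := two_ne_zero
  have h1 : ξ ^ (q : ℤ) = (2 : ℂ) ^ (-(n : ℤ)) := by
    rw [zpow_natCast, zpow_neg, zpow_natCast]
    exact eq_inv_of_mul_eq_one_left hξ
  rw [mul_pow, ← zpow_natCast ((2 : ℂ) ^ x), ← zpow_natCast (ξ ^ y), ← zpow_mul, ← zpow_mul,
    mul_comm y (n : ℤ), ← h, zpow_mul ξ, h1, ← zpow_mul, ← zpow_add₀ h2]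
  have h3 : x * (n : ℤ) + -(n : ℤ) * x = 0 := by ring
  rw [h3, zpow_zero]

lemma key (hn : 1 ≤ n) (hq : 1 ≤ q) (h2n : ¬ 2 ∣ n) (h3n : ¬ 3 ∣ n) (hξ : ξ ^ q * 2 ^ n = 1)
    (x y x' y' : ℤ) (h1 : 0 ≤ (q : ℤ) * x - n * y)
    (h2 : (q : ℤ) * x - n * y ≤ (q : ℤ) * x' - n * y') :
    1 + (2 : ℂ) ^ x * ξ ^ y + (2 : ℂ) ^ x' * ξ ^ y' ≠ 0 := by
  intro h0
  obtain ⟨r, hr⟩ := Int.eq_ofNat_of_zero_le h1
  obtain ⟨r', hr'⟩ := Int.eq_ofNat_of_zero_le (h1.trans h2)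
  have hrr : r ≤ r' := by
    rw [hr, hr'] at h2
    exact_mod_cast h2
  have hu := mon_q hq hξ x y
  have hv := mon_q hq hξ x' y'
  rw [hr] at hu
  rw [hr'] at hv
  have hu2 : ((2 : ℂ) ^ x * ξ ^ y) ^ q = 2 ^ r := by
    rw [hu]; exact zpow_natCast _ _
  have hv2 : ((2 : ℂ) ^ x' * ξ ^ y') ^ q = 2 ^ r' := by
    rw [hv]; exact zpow_natCast _ _
  set u : ℂ := (2 : ℂ) ^ x * ξ ^ y with hudef
  set v : ℂ := (2 : ℂ) ^ x' * ξ ^ y' with hvdef
  have hone : IsIntegral ℤ (1 : ℂ) := isIntegral_one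
  rcases Nat.eq_zero_or_pos r with hr0 | hr0
  · have hxy : (q : ℤ) * x = n * y := by
      rw [hr0] at hr
      have : (q : ℤ) * x - n * y = 0 := hr
      linarith
    have hun : u ^ n = 1 := mon_n hq hξ hxy
    rcases Nat.eq_zero_or_pos r' with hr0' | hr0'
    · have hxy' : (q : ℤ) * x' = n * y' := by
        rw [hr0'] at hr'
        have : (q : ℤ) * x' - n * y' = 0 := hr'
        linarith
      have hvn : v ^ n = 1 := mon_n hq hξ hxy'
      have hnu : ‖u‖ = 1 := Complex.norm_eq_one_of_pow_eq_one hun (by omega)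
      have hnv : ‖v‖ = 1 := Complex.norm_eq_one_of_pow_eq_one hvn (by omega)
      have hu0 : u ≠ 0 := by
        intro h; rw [h, norm_zero] at hnu; exact zero_ne_one hnu
      have hv0 : v ≠ 0 := by
        intro h; rw [h, norm_zero] at hnv; exact zero_ne_one hnv
      have hc : 1 + u⁻¹ + v⁻¹ = 0 := by
        rw [Complex.inv_eq_conj hnu, Complex.inv_eq_conj hnv]
        have := congrArg (starRingEnd ℂ) h0
        simpa using this
      have huv : u * v = 1 := by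
        have h5 : u * v * (1 + u⁻¹ + v⁻¹) = u * v + v + u := by
          field_simp
        rw [hc, mul_zero] at h5
        linear_combination -h0 - h5
      have hu3 : u ^ 3 = 1 := by
        have h6 : u ^ 2 + u + 1 = 0 := by
          linear_combination u * h0 - huv
        linear_combination (u - 1) * h6
      have hu1 : u = 1 := by
        have hcop : Nat.Coprime 3 n := (Nat.Prime.coprime_iff_not_dvd Nat.prime_three).2 h3n
        have h7 : orderOf u ∣ 1 := by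
          rw [← hcop]
          exact Nat.dvd_gcd (orderOf_dvd_of_pow_eq_one hu3) (orderOf_dvd_of_pow_eq_one hun)
        exact orderOf_eq_one_iff.1 (Nat.dvd_one.1 h7)
      rw [hu1] at h0 huv
      have h8 : v = 1 := by simpa using huv
      rw [h8] at h0
      norm_num at h0
    · by_cases hu1 : u = 1
      · have hv3 : v = -2 := by
          rw [hu1] at h0
          linear_combination h0
        have hqr : q = r' := by
          have h5 := congrArg norm hv2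
          rw [hv3] at h5
          simp only [norm_pow, norm_neg, Complex.norm_ofNat] at h5
          have h6 : (2 : ℕ) ^ q = 2 ^ r' := by exact_mod_cast h5
          exact Nat.pow_right_injective (le_refl 2) h6
        have hxy2 : (q : ℤ) * (x' - 1) = n * y' := by
          have h6 : (q : ℤ) * x' - n * y' = (r' : ℤ) := hr'
          rw [← hqr] at h6
          linarith
        have h5 := mon_n hq hξ hxy2
        have h6 : (2 : ℂ) ^ (x' - 1) * ξ ^ y' = -1 := by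
          rw [zpow_sub_one₀ two_ne_zero]
          have h7 : (2 : ℂ) ^ x' * 2⁻¹ * ξ ^ y' = 2⁻¹ * v := by
            rw [hvdef]; ring
          rw [h7, hv3]; norm_num
        rw [h6] at h5
        have hodd : Odd n := Nat.not_even_iff_odd.1 (fun h => h2n h.two_dvd)
        rw [hodd.neg_one_pow] at h5
        norm_num at h5
      · have hodd : Odd n := Nat.not_even_iff_odd.1 (fun h => h2n h.two_dvd)
        obtain ⟨m, hm⟩ := hodd
        let κ : ℂ := ∑ i ∈ Finset.range (m + 1), (u ^ 2) ^ i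
        have hui : IsIntegral ℤ u := integral_of_pow hq hu2
        have hκ : IsIntegral ℤ κ := IsIntegral.sum _ (fun i _ => (hui.pow 2).pow i)
        have hg : κ * (u ^ 2 - 1) = (u ^ 2) ^ (m + 1) - 1 := geom_sum_mul (u ^ 2) (m + 1)
        have hg2 : (u ^ 2) ^ (m + 1) = u := by
          rw [← pow_mul]
          have e : 2 * (m + 1) = n + 1 := by omega
          rw [e, pow_succ, hun, one_mul]
        have hk1 : (1 + u) * κ = 1 := by
          have h5 : (u - 1) * ((1 + u) * κ - 1) = 0 := by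
            rw [hg2] at hg
            linear_combination hg
          have h6 := (mul_eq_zero.1 h5).resolve_left (sub_ne_zero.2 hu1)
          linear_combination h6
        apply rad_ne (u := v) (v := v) (κ := κ) (lam := 0) hq hr0' hr0' hv2 hv2 hκ isIntegral_zero
        linear_combination κ * h0 - hk1
  · apply rad_ne (u := u) (v := v) (κ := 1) (lam := 1) hq hr0 (lt_of_lt_of_le hr0 hrr) hu2 hv2 hone hone
    linear_combination h0

lemma key2 (hn : 1 ≤ n) (hq : 1 ≤ q) (h2n : ¬ 2 ∣ n) (h3n : ¬ 3 ∣ n) (hξ : ξ ^ q * 2 ^ n = 1)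
    (x y x' y' : ℤ) (h1 : 0 ≤ (q : ℤ) * x - n * y) (h2 : 0 ≤ (q : ℤ) * x' - n * y') :
    1 + (2 : ℂ) ^ x * ξ ^ y + (2 : ℂ) ^ x' * ξ ^ y' ≠ 0 := by
  rcases le_total ((q : ℤ) * x - n * y) ((q : ℤ) * x' - n * y') with h | h
  · exact key hn hq h2n h3n hξ x y x' y' h1 h
  · intro h0
    apply key hn hq h2n h3n hξ x' y' x y h2 h
    rw [← h0]; ring

/-- three monomials have no zero sum -/
theorem nonvan (hn : 1 ≤ n) (hq : 1 ≤ q) (h2n : ¬ 2 ∣ n) (h3n : ¬ 3 ∣ n) (hξ : ξ ^ q * 2 ^ n = 1)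
    (a α b β : ℕ) : 1 + (2 : ℂ) ^ a * ξ ^ α + (2 : ℂ) ^ b * ξ ^ β ≠ 0 := by
  have hξ0 := xi_ne hq hξ
  have h2 : (2 : ℂ) ≠ 0 := two_ne_zero
  have ea : (2 : ℂ) ^ a * ξ ^ α = (2 : ℂ) ^ (a : ℤ) * ξ ^ (α : ℤ) := by
    rw [zpow_natCast, zpow_natCast]
  have eb : (2 : ℂ) ^ b * ξ ^ β = (2 : ℂ) ^ (b : ℤ) * ξ ^ (β : ℤ) := by
    rw [zpow_natCast, zpow_natCast]
  rw [ea, eb]
  -- division by a monomial
  have hdiv : ∀ a α b β : ℤ, 1 + (2 : ℂ) ^ a * ξ ^ α + (2 : ℂ) ^ b * ξ ^ β = 0 →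
      1 + (2 : ℂ) ^ (-a) * ξ ^ (-α) + (2 : ℂ) ^ (b - a) * ξ ^ (β - α) = 0 := by
    intro a α b β h
    have h3 : (2 : ℂ) ^ (-a) * ξ ^ (-α) * (1 + (2 : ℂ) ^ a * ξ ^ α + (2 : ℂ) ^ b * ξ ^ β) = 0 := by
      rw [h, mul_zero]
    rw [← h3, zpow_sub₀ h2, zpow_sub₀ hξ0, zpow_neg, zpow_neg]
    have h4 : (2 : ℂ) ^ a ≠ 0 := zpow_ne_zero _ h2
    have h5 : ξ ^ α ≠ 0 := zpow_ne_zero _ hξ0
    field_simp
    ring
  intro h0
  by_cases hA : 0 ≤ (q : ℤ) * a - n * α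
  · by_cases hB : 0 ≤ (q : ℤ) * b - n * β
    · exact key2 hn hq h2n h3n hξ _ _ _ _ hA hB h0
    · have h0' : 1 + (2 : ℂ) ^ (b : ℤ) * ξ ^ (β : ℤ) + (2 : ℂ) ^ (a : ℤ) * ξ ^ (α : ℤ) = 0 := by
        rw [← h0]; ring
      refine key2 hn hq h2n h3n hξ _ _ _ _ ?_ ?_ (hdiv _ _ _ _ h0')
      · linarith
      · linarith
  · by_cases hB : (q : ℤ) * a - n * α ≤ (q : ℤ) * b - n * β
    · refine key2 hn hq h2n h3n hξ _ _ _ _ ?_ ?_ (hdiv _ _ _ _ h0)
      · linarith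
      · linarith
    · have h0' : 1 + (2 : ℂ) ^ (b : ℤ) * ξ ^ (β : ℤ) + (2 : ℂ) ^ (a : ℤ) * ξ ^ (α : ℤ) = 0 := by
        rw [← h0]; ring
      refine key2 hn hq h2n h3n hξ _ _ _ _ ?_ ?_ (hdiv _ _ _ _ h0')
      · linarith
      · linarith

end

end Pool.Agent.Helper53.GG
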