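import Mathlib
import Pool.Agent.Helper53.GD.Main
import Pool.Agent.Helper53.GG.Core
import Pool.Agent.Helper53.GG.NonVan

set_option autoImplicit false

namespace Pool.Agent.Helper53.GG

open Finset Polynomial Pool.Agent.Helper53.GD

/-- **The bound.** Divisors of `2 ^ n - 1` and of `2 ^ a + 2 ^ b + 1`, `n` prime to six. -/
theorem bound {n a b N : ℕ} (hn : 1 ≤ n) (h2n : ¬ 2 ∣ n) (h3n : ¬ 3 ∣ n) (hN : 1 ≤ N)
    {x : ℤ} (hx : x ∣ (2 : ℤ) ^ n - 1) (hxz : x ∣ 2 ^ a + 2 ^ b + 1) :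
    |x| ≤ 6 ^ (N ^ 2) * 2 ^ (2 * n / N) := by
  classical
  have hx' : x ∣ ((2 : ℕ) : ℤ) ^ n - 1 := by exact_mod_cast hx
  have hcop : IsCoprime x ((2 : ℕ) : ℤ) := coprime_of_dvd hn (Or.inl rfl) hx'
  let U : Finset ℕ := {a, b}
  have hU : U.card ≤ 2 := Finset.card_le_two
  obtain ⟨q, α, hq1, hq2, hα⟩ := dirichletN U hn hN
  have hq3 : q ≤ N ^ 2 := hq2.trans (Nat.pow_le_pow_right hN hU)
  let f : Fin 3 → ℕ := ![0, a, b]
  let α' : Fin 3 → ℕ := ![0, α a, α b]
  have f0 : f 0 = 0 := rfl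
  have f1 : f 1 = a := rfl
  have f2 : f 2 = b := rfl
  have a0 : α' 0 = 0 := rfl
  have a1 : α' 1 = α a := rfl
  have a2 : α' 2 = α b := rfl
  have hα' : ∀ i : Fin 3, |(N : ℤ) * ((q : ℤ) * (f i : ℤ) - n * α' i)| < n := by
    intro i
    fin_cases i
    · simp only [f, α']
      simp
      omega
    · have := hα a (by simp [U])
      simpa [f, α'] using this
    · have := hα b (by simp [U])
      simpa [f, α'] using this
  let S : ℕ := (n + N * q - 1) / (N * q)
  have hNq : 0 < N * q := Nat.mul_pos (by omega) (by omega)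
  have hS1 : n ≤ N * q * S := by
    have h3 := Nat.div_add_mod (n + N * q - 1) (N * q)
    have h4 := Nat.mod_lt (n + N * q - 1) hNq
    simp only [S]
    omega
  have hS2 : N * q * S ≤ n + N * q - 1 := Nat.mul_div_le _ _
  have hxz' : x ∣ ∑ i : Fin 3, (1 : ℤ) * ((2 : ℕ) : ℤ) ^ (f i + S) := by
    have h1 : ∑ i : Fin 3, (1 : ℤ) * ((2 : ℕ) : ℤ) ^ (f i + S) = 2 ^ S * (2 ^ a + 2 ^ b + 1) := by
      rw [Fin.sum_univ_three, f0, f1, f2]
      push_cast
      ring
    rw [h1]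
    exact Dvd.dvd.mul_left hxz _
  have hcore := core_points (b := 2) (n := n) (r := 2 * n / N + q) (le_refl 2) hq1
    (ε := 1) (Or.inl rfl) (Finset.univ : Finset (Fin 3)) (fun _ => 1) (fun i => f i + S) α' (by
      intro ξ hξ
      have hξ2 : ξ ^ q * 2 ^ n = 1 := by
        rw [hξ]
        push_cast
        field_simp
      have h1 := nonvan hn hq1 h2n h3n hξ2 a (α a) b (α b)
      have h2 : ∑ i : Fin 3, (((1 : ℤ)) : ℂ) * ((2 : ℕ) : ℂ) ^ (f i + S) * ξ ^ (α' i) =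
          2 ^ S * (1 + (2 : ℂ) ^ a * ξ ^ (α a) + (2 : ℂ) ^ b * ξ ^ (α b)) := by
        rw [Fin.sum_univ_three, f0, f1, f2, a0, a1, a2]
        push_cast
        ring
      rw [h2]
      exact mul_ne_zero (pow_ne_zero _ two_ne_zero) h1) (by
      intro i _
      have h3 := hα' i
      rw [abs_lt] at h3
      have h4 : (n : ℤ) ≤ N * q * S := by exact_mod_cast hS1
      have h5 : (0 : ℤ) < N := by exact_mod_cast hN
      have h6 : (0 : ℤ) < N * ((q : ℤ) * (f i : ℤ) + q * S - n * α' i) := by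
        have h7 : (N : ℤ) * ((q : ℤ) * (f i : ℤ) + q * S - n * α' i) =
            (N : ℤ) * ((q : ℤ) * (f i : ℤ) - n * α' i) + N * q * S := by ring
        rw [h7]; linarith [h3.1]
      have h8 : (0 : ℤ) < (q : ℤ) * (f i : ℤ) + q * S - n * α' i :=
        lt_of_mul_lt_mul_left (by rw [mul_zero]; exact h6) h5.le
      have h9 : ((n * α' i : ℕ) : ℤ) ≤ ((q * (f i + S) : ℕ) : ℤ) := by
        push_cast; linarith
      exact_mod_cast h9) (by
      intro i _
      have h3 := hα' i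
      rw [abs_lt] at h3
      have h4 : (N : ℤ) * q * S ≤ n + N * q - 1 := by
        have h5 : N * q * S + 1 ≤ n + N * q := by omega
        have : ((N * q * S + 1 : ℕ) : ℤ) ≤ ((n + N * q : ℕ) : ℤ) := by exact_mod_cast h5
        push_cast at this
        linarith
      have h5 : (0 : ℤ) < N := by exact_mod_cast hN
      have h6 : (N : ℤ) * ((q : ℤ) * (f i : ℤ) + q * S - n * α' i - q) < 2 * n := by
        have h7 : (N : ℤ) * ((q : ℤ) * (f i : ℤ) + q * S - n * α' i - q) =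
            (N : ℤ) * ((q : ℤ) * (f i : ℤ) - n * α' i) + N * q * S - N * q := by ring
        rw [h7]; linarith [h3.2]
      have h8 : (q : ℤ) * (f i : ℤ) + q * S - n * α' i - q ≤ ((2 * n / N : ℕ) : ℤ) := by
        push_cast
        rw [Int.le_ediv_iff_mul_le h5]
        linarith
      have h9 : ((q * (f i + S) : ℕ) : ℤ) ≤ ((n * α' i + (2 * n / N + q) : ℕ) : ℤ) := by
        push_cast at h8 ⊢
        linarith
      exact_mod_cast h9) hx' hcop hxz'
  have h1 : |x| ≤ 6 ^ q * 2 ^ (2 * n / N) := by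
    refine hcore.trans (le_of_eq ?_)
    simp only [abs_one, Finset.sum_const, Finset.card_univ, Fintype.card_fin]
    push_cast
    have e : (6 : ℤ) ^ q = 3 ^ q * 2 ^ q := by rw [← mul_pow]; norm_num
    rw [e, pow_add]
    simp
    ring
  refine h1.trans (mul_le_mul_of_nonneg_right ?_ (by positivity))
  exact pow_le_pow_right₀ (by norm_num) hq3

/-- the same for primes -/
theorem bound_prime {p : ℕ} (hp : p.Prime) {a b N : ℕ} (hN : 1 ≤ N)
    (hodd : p ≠ 2) (h2n : ¬ 2 ∣ orderOf (2 : ZMod p)) (h3n : ¬ 3 ∣ orderOf (2 : ZMod p))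
    (hz : p ∣ 2 ^ a + 2 ^ b + 1) :
    p ≤ 6 ^ (N ^ 2) * 2 ^ (2 * orderOf (2 : ZMod p) / N) := by
  have hfact : Fact p.Prime := ⟨hp⟩
  have hn : 1 ≤ orderOf (2 : ZMod p) := by
    have h : orderOf (2 : ZMod p) ≠ 0 := fun h => h2n (by rw [h]; exact dvd_zero 2)
    omega
  have hx : (p : ℤ) ∣ (2 : ℤ) ^ (orderOf (2 : ZMod p)) - 1 := by
    rw [← ZMod.intCast_zmod_eq_zero_iff_dvd]
    push_cast
    rw [pow_orderOf_eq_one, sub_self]
  have hxz : (p : ℤ) ∣ 2 ^ a + 2 ^ b + 1 := by exact_mod_cast hz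
  have h := bound hn h2n h3n hN hx hxz
  rw [abs_of_nonneg (by positivity)] at h
  exact_mod_cast h

end Pool.Agent.Helper53.GG
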